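import Pool.Agent.Lib.helper26.RenC

namespace Pool.Agent.Results.MP_737f38_pr.CriticalOne
open Finset

/-- `P(S = k)` for `S = X_1 + … + X_m`, `X_i` independent Bernoulli(`p i`) -/
noncomputable def pmf {m : ℕ} (p : Fin m → ℝ) (k : ℕ) : ℝ :=
  ∑ A ∈ (univ : Finset (Fin m)).powersetCard k, (∏ i ∈ A, p i) * ∏ i ∈ Aᶜ, (1 - p i)

open Classical in
/-- Renyi entropy of order `q` of a mass function on `{0, …, m}` (Shannon entropy for `q = 1`) -/
noncomputable def renyi (q : ℝ) (m : ℕ) (P : ℕ → ℝ) : ℝ :=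
  if q = 1 then -∑ k ∈ range (m + 1), P k * Real.log (P k)
  else 1 / (1 - q) * Real.log (∑ k ∈ range (m + 1), P k ^ q)

/-- `φ_q(t)` along the affine path from `p0` to `p1` -/
noncomputable def phi (q : ℝ) {m : ℕ} (p0 p1 : Fin m → ℝ) (t : ℝ) : ℝ :=
  renyi q m (pmf fun i => (1 - t) * p0 i + t * p1 i)

def InCube {m : ℕ} (p : Fin m → ℝ) : Prop := ∀ i, p i ∈ Set.Icc (0 : ℝ) 1

/-- property (i) -/
def PropI (c : ℝ) : Prop :=
  ∀ q : ℝ, 0 < q → q ≤ c → ∀ m : ℕ, 1 ≤ m → ∀ p0 p1 : Fin m → ℝ, InCube p0 → InCube p1 →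
    ConcaveOn ℝ (Set.Icc 0 1) (phi q p0 p1)

/-- property (ii) -/
def PropII (c : ℝ) : Prop :=
  ∀ q : ℝ, c < q → ∃ m : ℕ, 1 ≤ m ∧ ∃ p0 p1 : Fin m → ℝ, InCube p0 ∧ InCube p1 ∧
    ConvexOn ℝ (Set.Icc 0 1) (phi q p0 p1) ∧
      ¬ ∃ a b : ℝ, ∀ t ∈ Set.Icc (0 : ℝ) 1, phi q p0 p1 t = a + b * t

open H26.Ren Filter Topology

lemma pmf_eq {m : ℕ} (p : Fin m → ℝ) : pmf p = pm p := by
  funext k
  simp only [pmf, pm, coeff_PP, compl_eq_univ_sdiff]

lemma propI : PropI 1 := by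
  intro q h0 h1 m hm p0 p1 hp0 hp1
  rcases eq_or_lt_of_le h1 with h | h
  · have := shannon_concave (ι := Fin m) (by simp; omega) hp0 hp1
    subst h
    unfold phi renyi
    simp only [if_true, pmf_eq]
    rw [Fintype.card_fin] at this
    exact this
  · have := renyi_concave (ι := Fin m) h0 h (by simp; omega) hp0 hp1
    unfold phi renyi
    simp only [if_neg h.ne, pmf_eq]
    rw [Fintype.card_fin] at this
    exact this

lemma affine_of {f : ℝ → ℝ} (h1 : ConvexOn ℝ (Set.Icc 0 1) f) (h2 : ConcaveOn ℝ (Set.Icc 0 1) f) :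
    ∃ a b : ℝ, ∀ t ∈ Set.Icc (0 : ℝ) 1, f t = a + b * t := by
  refine ⟨f 0, f 1 - f 0, fun t ht => ?_⟩
  have a0 : (0 : ℝ) ∈ Set.Icc (0 : ℝ) 1 := by simp
  have a1 : (1 : ℝ) ∈ Set.Icc (0 : ℝ) 1 := by simp
  have e1 := h1.2 a0 a1 (show 0 ≤ 1 - t by linarith [ht.2]) ht.1 (by ring)
  have e2 := h2.2 a0 a1 (show 0 ≤ 1 - t by linarith [ht.2]) ht.1 (by ring)
  simp only [smul_eq_mul, mul_zero, mul_one, zero_add] at e1 e2
  linarith

lemma strict_sq {ψ : ℝ → ℝ} (hψ : ContDiffAt ℝ 2 ψ 0) (hd : 0 < deriv ψ 0) :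
    ∀ᶠ η in 𝓝[>] (0 : ℝ), StrictConvexOn ℝ (Set.Icc (-η) η) (fun u => ψ (u ^ 2)) := by
  set g : ℝ → ℝ := fun u => ψ (u ^ 2) with hg
  have hsq : Tendsto (fun u : ℝ => u ^ 2) (𝓝 0) (𝓝 0) := by
    simpa using (continuous_pow 2).tendsto (0 : ℝ)
  have hg2 : ContDiffAt ℝ 2 g 0 :=
    ContDiffAt.comp (g := ψ) 0 (by simpa using hψ) (by fun_prop)
  have hψ1 : ContDiffAt ℝ 1 (deriv ψ) 0 := hψ.derivWithin (by norm_num)
  have hg1 : ContDiffAt ℝ 1 (deriv g) 0 := hg2.derivWithin (by norm_num)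
  have hg0 : ContDiffAt ℝ 0 (deriv (deriv g)) 0 := hg1.derivWithin (by norm_num)
  have ev : deriv g =ᶠ[𝓝 0] fun u => deriv ψ (u ^ 2) * (2 * u) := by
    filter_upwards [hsq.eventually (hψ.eventually (by simp))] with u hu
    have h1 := (hu.differentiableAt (by norm_num)).hasDerivAt
    have h2 : HasDerivAt (fun u : ℝ => u ^ 2) (2 * u) u := by simpa using hasDerivAt_pow 2 u
    exact (HasDerivAt.comp (h₂ := ψ) (h := fun u : ℝ => u ^ 2) u h1 h2).deriv
  have h2 : deriv (deriv g) 0 = 2 * deriv ψ 0 := by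
    rw [ev.deriv_eq]
    have h3 : DifferentiableAt ℝ (fun u : ℝ => deriv ψ (u ^ 2)) 0 :=
      DifferentiableAt.comp (g := deriv ψ) 0
        (by simpa using hψ1.differentiableAt (by norm_num)) (by fun_prop)
    have h4 := h3.hasDerivAt.mul ((hasDerivAt_id (0 : ℝ)).const_mul 2)
    have h5 := h4.deriv
    simp only [id, mul_zero, mul_one, zero_add] at h5
    refine Eq.trans ?_ (h5.trans ?_)
    · rfl
    · simp [mul_comm]
  have ev2 : ∀ᶠ u in 𝓝 (0 : ℝ), 0 < deriv (deriv g) u ∧ ContinuousAt g u := by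
    refine (hg0.continuousAt.eventually (lt_mem_nhds (by rw [h2]; positivity))).and ?_
    filter_upwards [hg2.eventually (by simp)] with u hu using hu.continuousAt
  obtain ⟨δ, hδ, H⟩ := Metric.eventually_nhds_iff.1 ev2
  filter_upwards [Ioo_mem_nhdsGT hδ] with η hη
  have H' : ∀ u ∈ Set.Icc (-η) η, 0 < deriv (deriv g) u ∧ ContinuousAt g u := fun u hu =>
    H (by rw [Real.dist_eq, sub_zero, abs_lt]; constructor <;> linarith [hu.1, hu.2, hη.2])
  exact strictConvexOn_of_deriv2_pos' (convex_Icc _ _)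
    (fun u hu => (H' u hu).2.continuousWithinAt) (fun u hu => (H' u hu).1)

lemma pm_two (x y : ℝ) : pm ![x, y] 0 = (1 - x) * (1 - y) ∧
    pm ![x, y] 1 = (1 - x) * y + x * (1 - y) ∧ pm ![x, y] 2 = x * y := by
  have : PP univ (fun i => 1 - ![x, y] i) ![x, y]
      = Polynomial.C ((1 - x) * (1 - y)) + Polynomial.C ((1 - x) * y + x * (1 - y)) * Polynomial.X
        + Polynomial.C (x * y) * Polynomial.X ^ 2 := by
    simp only [PP, Fin.prod_univ_two, Matrix.cons_val_zero, Matrix.cons_val_one, map_mul, map_add]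
    ring
  simp only [pm, this, Polynomial.coeff_add, Polynomial.coeff_C_mul, Polynomial.coeff_C,
    Polynomial.coeff_X, Polynomial.coeff_X_pow]
  simp

lemma propII : PropII 1 := by
  intro q hq
  have hq1 : 0 < q - 1 := by linarith
  obtain ⟨a, ha, ha0, ha1⟩ : ∃ a : ℝ, 2 * (2 * a * (1 - a)) ^ (q - 1) < ((1 - a) ^ 2) ^ (q - 1)
      ∧ 0 < a ∧ a < 1 / 2 := by
    have c1 : Continuous fun a : ℝ => 2 * (2 * a * (1 - a)) ^ (q - 1) :=
      continuous_const.mul (Continuous.rpow_const (by fun_prop) fun _ => Or.inr hq1.le)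
    have c2 : Continuous fun a : ℝ => ((1 - a) ^ 2) ^ (q - 1) :=
      Continuous.rpow_const (by fun_prop) fun _ => Or.inr hq1.le
    have ev : ∀ᶠ a in 𝓝 (0 : ℝ), 2 * (2 * a * (1 - a)) ^ (q - 1) < ((1 - a) ^ 2) ^ (q - 1) :=
      c1.continuousAt.eventually_lt c2.continuousAt (by simp [Real.zero_rpow hq1.ne'])
    exact ((ev.filter_mono nhdsWithin_le_nhds).and
      (Ioo_mem_nhdsGT (show (0 : ℝ) < 1 / 2 by norm_num))).exists
  have hb : 0 < 1 - a := by linarith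
  set F : ℝ → ℝ := fun w => ((1 - a) ^ 2 - w) ^ q + (2 * a * (1 - a) + 2 * w) ^ q + (a ^ 2 - w) ^ q
    with hF
  have p1 : 0 < (1 - a) ^ 2 := by positivity
  have p2 : 0 < 2 * a * (1 - a) := by positivity
  have p3 : 0 < a ^ 2 := by positivity
  have hF0 : 0 < F 0 := by simp only [hF, sub_zero, mul_zero, add_zero]; positivity
  have hFc : ContDiffAt ℝ 2 F 0 := by
    refine ContDiffAt.add (ContDiffAt.add ?_ ?_) ?_ <;>
      refine ContDiffAt.rpow_const_of_ne (by fun_prop) ?_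
    · simpa using hb.ne'
    · simpa using ⟨ha0.ne', hb.ne'⟩
    · simpa using ha0.ne'
  have hFd : HasDerivAt F (-1 * q * ((1 - a) ^ 2 - 0) ^ (q - 1)
      + 2 * 1 * q * (2 * a * (1 - a) + 2 * 0) ^ (q - 1) + -1 * q * (a ^ 2 - 0) ^ (q - 1)) 0 := by
    refine HasDerivAt.add (HasDerivAt.add ?_ ?_) ?_
    · exact ((hasDerivAt_id (0 : ℝ)).const_sub _).rpow_const (Or.inr hq.le)
    · exact (((hasDerivAt_id (0 : ℝ)).const_mul 2).const_add _).rpow_const (Or.inr hq.le)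
    · exact ((hasDerivAt_id (0 : ℝ)).const_sub _).rpow_const (Or.inr hq.le)
  set ψ : ℝ → ℝ := fun w => 1 / (1 - q) * Real.log (F w) with hψ
  have hψc : ContDiffAt ℝ 2 ψ 0 := contDiffAt_const.mul (hFc.log hF0.ne')
  have hψd : 0 < deriv ψ 0 := by
    rw [((hFd.log hF0.ne').const_mul (1 / (1 - q))).deriv]
    refine mul_pos_of_neg_of_neg (one_div_neg.2 (by linarith)) (div_neg_of_neg_of_pos ?_ hF0)
    simp only [sub_zero, mul_zero, add_zero]
    have := Real.rpow_pos_of_pos p3 (q - 1)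
    nlinarith
  obtain ⟨η, hη, hη0, hη1⟩ := ((strict_sq hψc hψd).and (Ioo_mem_nhdsGT ha0)).exists
  have e : ∀ t, phi q ![a + η, a - η] ![a - η, a + η] t = ψ ((η * (1 - 2 * t)) ^ 2) := by
    intro t
    have : (fun i => (1 - t) * ![a + η, a - η] i + t * ![a - η, a + η] i)
        = ![a + η * (1 - 2 * t), a - η * (1 - 2 * t)] := by
      funext i; fin_cases i <;> simp <;> ring
    obtain ⟨e0, e1, e2⟩ := pm_two (a + η * (1 - 2 * t)) (a - η * (1 - 2 * t))
    simp only [phi, renyi, if_neg hq.ne', this, pmf_eq, sum_range_succ, range_zero, sum_empty,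
      zero_add, e0, e2, hψ, hF]
    rw [e1]
    congr 5 <;> ring
  have hmem : ∀ t ∈ Set.Icc (0 : ℝ) 1, η * (1 - 2 * t) ∈ Set.Icc (-η) η := fun t ht =>
    ⟨by nlinarith [ht.2], by nlinarith [ht.1]⟩
  refine ⟨2, by norm_num, ![a + η, a - η], ![a - η, a + η], fun i => ?_, fun i => ?_,
    ⟨convex_Icc 0 1, fun x hx y hy s t hs ht hst => ?_⟩, ?_⟩
  · fin_cases i <;> simp <;> constructor <;> linarith
  · fin_cases i <;> simp <;> constructor <;> linarith
  · have := hη.convexOn.2 (hmem x hx) (hmem y hy) hs ht hst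
    simp only [e, smul_eq_mul] at this ⊢
    rw [show η * (1 - 2 * (s * x + t * y)) = s * (η * (1 - 2 * x)) + t * (η * (1 - 2 * y)) by
      linear_combination (-η) * hst]
    exact this
  · rintro ⟨α, β, h⟩
    have := hη.2 (hmem 0 (by simp)) (hmem 1 (by simp)) (by intro h; nlinarith)
      (show (0 : ℝ) < 1 / 2 by norm_num) (show (0 : ℝ) < 1 / 2 by norm_num) (by norm_num)
    have h0 := h 0 (by simp)
    have h1 := h 1 (by simp)
    have h2 := h (1 / 2) (by constructor <;> norm_num)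
    rw [e] at h0 h1 h2
    simp only [smul_eq_mul] at this
    rw [show 1 / 2 * (η * (1 - 2 * 0)) + 1 / 2 * (η * (1 - 2 * 1)) = η * (1 - 2 * (1 / 2)) by ring,
      h0, h1, h2] at this
    linarith

theorem result : ∀ c : ℝ, 0 < c → (PropI c ∧ PropII c ↔ c = 1) := by
  intro c hc
  refine ⟨fun ⟨h1, h2⟩ => ?_, fun h => h ▸ ⟨propI, propII⟩⟩
  rcases lt_trichotomy c 1 with h | h | h
  · obtain ⟨m, hm, p0, p1, a0, a1, hcv, hna⟩ := h2 1 h
    exact absurd (affine_of hcv (propI 1 one_pos le_rfl m hm p0 p1 a0 a1)) hna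
  · exact h
  · obtain ⟨m, hm, p0, p1, a0, a1, hcv, hna⟩ := propII c h
    exact absurd (affine_of hcv (h1 c hc le_rfl m hm p0 p1 a0 a1)) hna

end Pool.Agent.Results.MP_737f38_pr.CriticalOne
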